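import Pool.Agent.Results.MP_725b87_an.NotPluripolar

set_option autoImplicit false

open Set Filter Topology Metric MeasureTheory

namespace Pool.Agent.L0h89.UpperTest

open Pool.Agent.Results.MP_725b87_an.NotPluripolar

/-- `x` is a contact point over the closed ball of centre `z0` and radius `r` for the concave
paraboloid of opening `M` with vertex `y`: the function `φ - (M/2)|· - y|^2` attains its maximum
over the ball at `x`.  The value `φ x` is required to be finite. -/
def Contact {n : ℕ} (φ : Cn n → EReal) (z0 : Cn n) (r M : ℝ) (x y : Cn n) : Prop :=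
  x ∈ closedBall z0 r ∧ φ x ≠ ⊥ ∧ ∀ z ∈ closedBall z0 r,
    φ z ≤ (((φ x).toReal + M / 2 * (‖z - y‖ ^ 2 - ‖x - y‖ ^ 2) : ℝ) : EReal)

theorem trig_le (c : ℝ) (h1 : c ≤ 1) (h2 : -1 ≤ c) :
    2 * c ^ 2 + 3 / 2 * c - 1 / 2 ≤ max (4 * c - 1) 0 := by
  rcases le_total c (1 / 4) with h | h
  · exact le_max_of_le_right (by nlinarith)
  · exact le_max_of_le_left (by nlinarith)

theorem mean_trig : (2 * Real.pi)⁻¹ * ∫ θ in (0 : ℝ)..(2 * Real.pi),
    (2 * Real.cos θ ^ 2 + 3 / 2 * Real.cos θ - 1 / 2) = 1 / 2 := by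
  have hpi : Real.pi ≠ 0 := Real.pi_ne_zero
  have h1 : (∫ θ in (0 : ℝ)..(2 * Real.pi), Real.cos θ ^ 2) = Real.pi := by
    rw [integral_cos_sq]
    simp
  rw [intervalIntegral.integral_sub (by apply Continuous.intervalIntegrable; fun_prop) (by simp),
    intervalIntegral.integral_add (by apply Continuous.intervalIntegrable; fun_prop)
      (by apply Continuous.intervalIntegrable; fun_prop),
    intervalIntegral.integral_const_mul, intervalIntegral.integral_const_mul, h1, integral_cos,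
    intervalIntegral.integral_const]
  simp
  field_simp
  norm_num

/-- The key estimate: the vertices of two touching paraboloids of the same opening are at most
sixteen times as far from each other as the contact points. -/
theorem contact_lip_aux {n : ℕ} {Ω : Set (Cn n)} {φ : Cn n → EReal} (hφ : IsPSH Ω φ)
    {z0 : Cn n} {r M : ℝ} (hM : 0 < M) (hsub : closedBall z0 r ⊆ Ω)
    {x1 y1 x2 y2 : Cn n} (h1 : Contact φ z0 r M x1 y1) (h2 : Contact φ z0 r M x2 y2)
    {d : ℝ} (hd : 0 < d) (hx : ‖x1 - x2‖ ≤ d) (hroom : ‖x1 - z0‖ + 4 * d ≤ r) :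
    ‖y2 - y1‖ ≤ 16 * d := by
  obtain ⟨htop, husc, hmean⟩ := hφ
  obtain ⟨hx1, hb1, hc1⟩ := h1
  obtain ⟨hx2, hb2, hc2⟩ := h2
  by_cases hp0 : y2 - y1 = 0
  · rw [hp0, norm_zero]; positivity
  set p : Cn n := y2 - y1 with hp
  have hpn : 0 < ‖p‖ := norm_pos_iff.2 hp0
  set a1 := (φ x1).toReal with ha1
  set a2 := (φ x2).toReal with ha2
  have hphi1 : φ x1 = (a1 : EReal) := (EReal.coe_toReal (htop x1 (hsub hx1)) hb1).symm
  have hphi2 : φ x2 = (a2 : EReal) := (EReal.coe_toReal (htop x2 (hsub hx2)) hb2).symm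
  have h12 : a2 ≤ a1 + M / 2 * (‖x2 - y1‖ ^ 2 - ‖x1 - y1‖ ^ 2) := by
    have := hc1 x2 hx2
    rw [hphi2, EReal.coe_le_coe_iff] at this
    exact this
  set w : Cn n := ((4 * d / ‖p‖ : ℝ) : ℂ) • p with hw
  have hwn : ‖w‖ = 4 * d := by
    rw [hw, norm_smul, Complex.norm_real, Real.norm_eq_abs, abs_of_pos (by positivity)]
    field_simp
  have hin : ∀ ζ : ℂ, ‖ζ‖ ≤ 1 → x1 + ζ • w ∈ closedBall z0 r := by
    intro ζ hζ
    rw [mem_closedBall, dist_eq_norm]
    calc ‖x1 + ζ • w - z0‖ = ‖(x1 - z0) + ζ • w‖ := by congr 1; abel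
      _ ≤ ‖x1 - z0‖ + ‖ζ • w‖ := norm_add_le _ _
      _ ≤ ‖x1 - z0‖ + 1 * ‖w‖ := by rw [norm_smul]; gcongr
      _ ≤ r := by rw [hwn]; linarith
  have hcirc : ∀ θ : ℝ, circ x1 w θ ∈ closedBall z0 r := by
    intro θ
    apply hin
    rw [Complex.norm_exp_ofReal_mul_I]
  have hkey := hmean x1 w (fun ζ hζ => hsub (hin ζ hζ))
    (fun θ => (a1 + M / 2 * (‖circ (x1 - y1) w θ‖ ^ 2 - ‖x1 - y1‖ ^ 2)) -
      M * ‖p‖ * d * (2 * Real.cos θ ^ 2 + 3 / 2 * Real.cos θ - 1 / 2))
    (by
      have := circ_continuous (x1 - y1) w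
      fun_prop) (by
      intro θ _
      have hT := trig_le (Real.cos θ) (Real.cos_le_one θ) (Real.neg_one_le_cos θ)
      set T := 2 * Real.cos θ ^ 2 + 3 / 2 * Real.cos θ - 1 / 2 with hTdef
      have hMpd : 0 < M * ‖p‖ * d := by positivity
      rcases le_or_gt T 0 with hT0 | hT0
      · refine (hc1 _ (hcirc θ)).trans ?_
        rw [EReal.coe_le_coe_iff, circ_sub]
        nlinarith
      · have hT4 : T ≤ 4 * Real.cos θ - 1 := by
          rcases le_max_iff.1 hT with h | h
          · exact h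
          · exact absurd h (not_le.2 hT0)
        refine (hc2 _ (hcirc θ)).trans ?_
        rw [EReal.coe_le_coe_iff]
        -- inner product computation
        set v : Cn n := circ x1 w θ - x2 with hv
        have e1 : circ (x1 - y1) w θ = v + (x2 - y1) := by
          rw [hv, ← circ_sub]; abel
        have e2 : circ x1 w θ - y2 = v + (x2 - y2) := by
          rw [hv]; abel
        have n1 := norm_add_sq (𝕜 := ℂ) v (x2 - y1)
        have n2 := norm_add_sq (𝕜 := ℂ) v (x2 - y2)
        have hinner : RCLike.re (inner ℂ v (x2 - y1)) - RCLike.re (inner ℂ v (x2 - y2)) =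
            RCLike.re (inner ℂ v p) := by
          rw [← map_sub, ← inner_sub_right]
          congr 2
          rw [hp]; abel
        have hv2 : v = (x1 - x2) + Complex.exp ((θ : ℂ) * Complex.I) • w := by
          rw [hv]; unfold circ; abel
        have hi1 : -(d * ‖p‖) ≤ RCLike.re (inner ℂ (x1 - x2) p) := by
          have h3 : ‖inner ℂ (x1 - x2) p‖ ≤ ‖x1 - x2‖ * ‖p‖ := norm_inner_le_norm _ _
          have h4 := abs_le.1 (RCLike.abs_re_le_norm (inner ℂ (x1 - x2) p))
          have h5 : ‖x1 - x2‖ * ‖p‖ ≤ d * ‖p‖ := by gcongr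
          linarith [h4.1]
        have hi2 : RCLike.re (inner ℂ (Complex.exp ((θ : ℂ) * Complex.I) • w) p) =
            4 * d * ‖p‖ * Real.cos θ := by
          rw [hw, inner_smul_left, inner_smul_left, inner_self_eq_norm_sq_to_K, Complex.conj_ofReal]
          have h6 : (starRingEnd ℂ) (Complex.exp ((θ : ℂ) * Complex.I)) *
              (((4 * d / ‖p‖ : ℝ) : ℂ) * ((‖p‖ : ℂ)) ^ 2) =
              (starRingEnd ℂ) (Complex.exp ((θ : ℂ) * Complex.I)) * ((4 * d * ‖p‖ : ℝ) : ℂ) := by
            congr 1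
            push_cast
            have : (‖p‖ : ℂ) ≠ 0 := by exact_mod_cast hpn.ne'
            field_simp
          erw [h6]
          rw [RCLike.re_eq_complex_re, Complex.re_mul_ofReal, Complex.conj_re,
            Complex.exp_ofReal_mul_I_re]
          ring
        have hi : d * ‖p‖ * (4 * Real.cos θ - 1) ≤ RCLike.re (inner ℂ v p) := by
          rw [hv2, inner_add_left, map_add, hi2]
          linarith
        have hTT : M * ‖p‖ * d * T ≤ M * RCLike.re (inner ℂ v p) := by
          calc M * ‖p‖ * d * T ≤ M * ‖p‖ * d * (4 * Real.cos θ - 1) := by gcongr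
            _ = M * (d * ‖p‖ * (4 * Real.cos θ - 1)) := by ring
            _ ≤ M * RCLike.re (inner ℂ v p) := by gcongr
        rw [e1, e2, n1, n2]
        rw [← hinner] at hTT
        linarith)
  rw [hphi1, EReal.coe_le_coe_iff] at hkey
  have hpi : Real.pi ≠ 0 := Real.pi_ne_zero
  have hint : (2 * Real.pi)⁻¹ * ∫ θ in (0 : ℝ)..(2 * Real.pi),
      ((a1 + M / 2 * (‖circ (x1 - y1) w θ‖ ^ 2 - ‖x1 - y1‖ ^ 2)) -
        M * ‖p‖ * d * (2 * Real.cos θ ^ 2 + 3 / 2 * Real.cos θ - 1 / 2)) =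
      (a1 + M / 2 * ‖w‖ ^ 2) - M * ‖p‖ * d * (1 / 2) := by
    have hcc := circ_continuous (x1 - y1) w
    have hms := mean_norm_sq (x1 - y1) w
    have hmt := mean_trig
    rw [intervalIntegral.integral_sub (by apply Continuous.intervalIntegrable; fun_prop)
      (by apply Continuous.intervalIntegrable; fun_prop),
      intervalIntegral.integral_const_mul, mul_sub, mul_left_comm, hmt]
    congr 1
    rw [intervalIntegral.integral_add (by simp)
      (by apply Continuous.intervalIntegrable; fun_prop),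
      intervalIntegral.integral_const_mul, intervalIntegral.integral_sub
      (by apply Continuous.intervalIntegrable; fun_prop) (by simp), mul_add, mul_left_comm,
      mul_sub, hms]
    simp only [intervalIntegral.integral_const, smul_eq_mul, sub_zero]
    field_simp
    ring
  rw [hint, hwn] at hkey
  have h3 : M * ‖p‖ * d ≤ M * d * (16 * d) := by nlinarith
  have h4 : 0 < M * d := by positivity
  nlinarith [mul_pos h4 hpn]

/-- Lipschitz estimate on the contact set. -/
theorem contact_lip {n : ℕ} {Ω : Set (Cn n)} {φ : Cn n → EReal} (hφ : IsPSH Ω φ)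
    {z0 : Cn n} {r M : ℝ} (hr : 0 < r) (hM : 0 < M) (hsub : closedBall z0 r ⊆ Ω)
    {x1 y1 x2 y2 : Cn n} (h1 : Contact φ z0 r M x1 y1) (h2 : Contact φ z0 r M x2 y2)
    (hx1 : ‖x1 - z0‖ ≤ r / 2) (hy1 : ‖y1 - z0‖ ≤ r / 8) (hy2 : ‖y2 - z0‖ ≤ r / 8) :
    ‖y2 - y1‖ ≤ 16 * ‖x1 - x2‖ := by
  by_contra hcon
  push Not at hcon
  have hyy : ‖y2 - y1‖ ≤ r / 4 := by
    calc ‖y2 - y1‖ = ‖(y2 - z0) - (y1 - z0)‖ := by congr 1; abel
      _ ≤ ‖y2 - z0‖ + ‖y1 - z0‖ := norm_sub_le _ _
      _ ≤ r / 4 := by linarith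
  have hd0 : 0 ≤ ‖x1 - x2‖ := norm_nonneg _
  -- choose `d` strictly between
  set d : ℝ := (‖x1 - x2‖ + ‖y2 - y1‖ / 16) / 2 with hd
  have h3 : ‖x1 - x2‖ ≤ d := by rw [hd]; linarith
  have h4 : 0 < d := by
    rw [hd]
    have : 0 < ‖y2 - y1‖ := by linarith
    linarith
  have h5 := contact_lip_aux hφ hM hsub h1 h2 h4 h3 (by rw [hd]; linarith)
  rw [hd] at h5
  linarith

/-- The contact set over the closed ball, for vertices in the concentric ball of radius `r/8`. -/
def contactSet {n : ℕ} (φ : Cn n → EReal) (z0 : Cn n) (r M : ℝ) : Set (Cn n) :=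
  {x | ∃ y ∈ closedBall z0 (r / 8), Contact φ z0 r M x y}

theorem contact_hasUpperTest {n : ℕ} {Ω : Set (Cn n)} {φ : Cn n → EReal} (hφ : IsPSH Ω φ)
    {z0 : Cn n} {r M : ℝ} (hsub : closedBall z0 r ⊆ Ω)
    {x y : Cn n} (h : Contact φ z0 r M x y) (hx : x ∈ ball z0 r) : HasUpperTest Ω φ x := by
  obtain ⟨hx1, hb, hc⟩ := h
  refine ⟨ball z0 r, fun z => M / 2 * ‖z - y‖ ^ 2, isOpen_ball,
    ball_subset_closedBall.trans hsub, hx, ?_, ?_⟩
  · apply ContDiff.contDiffOn
    apply contDiff_const.mul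
    exact (contDiff_id.sub contDiff_const).norm_sq ℝ
  · intro z hz
    have h1 := hc z (ball_subset_closedBall hz)
    have hphi : φ x = ((φ x).toReal : EReal) :=
      (EReal.coe_toReal (hφ.1 x (hsub hx1)) hb).symm
    by_cases hzb : φ z = ⊥
    · rw [hzb, EReal.bot_sub]; exact bot_le
    · have hphiz : φ z = ((φ z).toReal : EReal) :=
        (EReal.coe_toReal (hφ.1 z (hsub (ball_subset_closedBall hz))) hzb).symm
      rw [hphiz, EReal.coe_le_coe_iff] at h1
      rw [hphi, hphiz, ← EReal.coe_sub, ← EReal.coe_sub, EReal.coe_le_coe_iff]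
      linarith

/-- For large opening every vertex has a contact point. -/
theorem exists_contact {n : ℕ} {Ω : Set (Cn n)} {φ : Cn n → EReal} (hφ : IsPSH Ω φ)
    {z0 : Cn n} {r : ℝ} (hr : 0 < r) (hsub : closedBall z0 r ⊆ Ω)
    (hfin : ∃ y ∈ closedBall z0 (r / 8), φ y ≠ ⊥) :
    ∃ M : ℝ, 0 < M ∧ (∀ y ∈ closedBall z0 (r / 8), ∃ x, Contact φ z0 r M x y) ∧
      (∀ y ∈ closedBall z0 (r / 8), ∀ x, Contact φ z0 r M x y → ‖x - z0‖ ≤ r / 2) := by
  obtain ⟨htop, husc, -⟩ := hφ
  obtain ⟨y', hy', hyb⟩ := hfin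
  have husc' : UpperSemicontinuousOn φ (closedBall z0 r) := husc.mono hsub
  have hy'r : y' ∈ closedBall z0 r := closedBall_subset_closedBall (by linarith) hy'
  have hphiy : φ y' = ((φ y').toReal : EReal) :=
    (EReal.coe_toReal (htop y' (hsub hy'r)) hyb).symm
  obtain ⟨s, hs, hsmax⟩ := husc'.exists_isMaxOn ⟨z0, mem_closedBall_self hr.le⟩
    (isCompact_closedBall z0 r)
  have hsmax' : ∀ z ∈ closedBall z0 r, φ z ≤ φ s := fun z hz => hsmax hz
  have hsb : φ s ≠ ⊥ := by
    intro h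
    have := hsmax' y' hy'r
    rw [h, le_bot_iff] at this
    exact hyb this
  set S := (φ s).toReal with hS
  have hphis : φ s = (S : EReal) := (EReal.coe_toReal (htop s (hsub hs)) hsb).symm
  have hbound : ∀ z ∈ closedBall z0 r, φ z ≤ (S : EReal) := fun z hz => by
    rw [← hphis]; exact hsmax' z hz
  set b := (φ y').toReal with hb
  have hbS : b ≤ S := by
    have := hbound y' hy'r
    rw [hphiy, EReal.coe_le_coe_iff] at this
    exact this
  set M : ℝ := (S - b + 1) * (128 / 5) / r ^ 2 with hMdef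
  have hM : 0 < M := by
    have : 0 < S - b + 1 := by linarith
    positivity
  have hMr : M / 2 * (5 / 64 * r ^ 2) = S - b + 1 := by
    rw [hMdef]; field_simp; ring
  have hdist : ∀ y ∈ closedBall z0 (r / 8), ‖y' - y‖ ≤ r / 4 := by
    intro y hy
    rw [mem_closedBall, dist_eq_norm] at hy hy'
    calc ‖y' - y‖ = ‖(y' - z0) - (y - z0)‖ := by congr 1; abel
      _ ≤ ‖y' - z0‖ + ‖y - z0‖ := norm_sub_le _ _
      _ ≤ r / 4 := by linarith
  refine ⟨M, hM, ?_, ?_⟩
  · intro y hy
    set F : Cn n → EReal := fun z => φ z + ((-(M / 2 * ‖z - y‖ ^ 2) : ℝ) : EReal) with hF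
    have hFusc : UpperSemicontinuousOn F (closedBall z0 r) := by
      apply UpperSemicontinuousOn.add' husc'
      · have : Continuous (fun z : Cn n => ((-(M / 2 * ‖z - y‖ ^ 2) : ℝ) : EReal)) :=
          continuous_coe_real_ereal.comp (by fun_prop)
        exact this.upperSemicontinuous.upperSemicontinuousOn _
      · intro z _
        apply EReal.continuousAt_add
        · right; exact EReal.coe_ne_bot _
        · right; exact EReal.coe_ne_top _
    obtain ⟨x, hx, hmax⟩ := hFusc.exists_isMaxOn ⟨z0, mem_closedBall_self hr.le⟩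
      (isCompact_closedBall z0 r)
    have hmax' : ∀ z ∈ closedBall z0 r, F z ≤ F x := fun z hz => hmax hz
    have hxb : φ x ≠ ⊥ := by
      intro h
      have h1 := hmax' y' hy'r
      simp only [hF, h, EReal.bot_add, le_bot_iff] at h1
      rw [hphiy, ← EReal.coe_add] at h1
      exact EReal.coe_ne_bot _ h1
    have hphix : φ x = ((φ x).toReal : EReal) :=
      (EReal.coe_toReal (htop x (hsub hx)) hxb).symm
    refine ⟨x, hx, hxb, ?_⟩
    intro z hz
    have h1 := hmax' z hz
    by_cases hzb : φ z = ⊥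
    · rw [hzb]; exact bot_le
    · have hphiz : φ z = ((φ z).toReal : EReal) :=
        (EReal.coe_toReal (htop z (hsub hz)) hzb).symm
      simp only [hF] at h1
      rw [hphiz, hphix, ← EReal.coe_add, ← EReal.coe_add, EReal.coe_le_coe_iff] at h1
      rw [hphiz, EReal.coe_le_coe_iff]
      linarith
  · rintro y hy x ⟨hx, hxb, hc⟩
    by_contra hcon
    push Not at hcon
    have h1 := hc y' hy'r
    rw [hphiy, EReal.coe_le_coe_iff] at h1
    have h2 : (φ x).toReal ≤ S := by
      have := hbound x hx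
      rw [(EReal.coe_toReal (htop x (hsub hx)) hxb).symm, EReal.coe_le_coe_iff] at this
      exact this
    have h3 : ‖y' - y‖ ^ 2 ≤ (r / 4) ^ 2 := by
      have := hdist y hy
      gcongr
    have h4 : 3 * r / 8 ≤ ‖x - y‖ := by
      rw [mem_closedBall, dist_eq_norm] at hy
      have : ‖x - z0‖ ≤ ‖x - y‖ + ‖y - z0‖ := by
        calc ‖x - z0‖ = ‖(x - y) + (y - z0)‖ := by congr 1; abel
          _ ≤ _ := norm_add_le _ _
      linarith
    have h5 : (3 * r / 8) ^ 2 ≤ ‖x - y‖ ^ 2 := by gcongr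
    have h6 : M / 2 * (‖y' - y‖ ^ 2 - ‖x - y‖ ^ 2) ≤ M / 2 * (-(5 / 64 * r ^ 2)) := by
      apply mul_le_mul_of_nonneg_left _ (by positivity)
      nlinarith
    nlinarith

/-- The contact set is compact. -/
theorem contactSet_isCompact {n : ℕ} {Ω : Set (Cn n)} {φ : Cn n → EReal} (hφ : IsPSH Ω φ)
    {z0 : Cn n} {r M : ℝ} (hsub : closedBall z0 r ⊆ Ω)
    (hfin : ∃ y ∈ closedBall z0 r, φ y ≠ ⊥) :
    IsCompact (contactSet φ z0 r M) := by
  obtain ⟨htop, husc, -⟩ := hφ
  obtain ⟨y', hy', hyb⟩ := hfin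
  have husc' : UpperSemicontinuousOn φ (closedBall z0 r) := husc.mono hsub
  have hphiy : φ y' = ((φ y').toReal : EReal) :=
    (EReal.coe_toReal (htop y' (hsub hy')) hyb).symm
  set K : Set (Cn n × Cn n) := closedBall z0 r ×ˢ closedBall z0 (r / 8) with hK
  have hKc : IsCompact K := (isCompact_closedBall _ _).prod (isCompact_closedBall _ _)
  set D : Set (Cn n × Cn n) := {P | P ∈ K ∧ ∀ z ∈ closedBall z0 r, φ z ≠ ⊥ →
    (((φ z).toReal + M / 2 * (‖P.1 - P.2‖ ^ 2 - ‖z - P.2‖ ^ 2) : ℝ) : EReal) ≤ φ P.1} with hD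
  have hcl : IsClosed D := by
    rw [← isSeqClosed_iff_isClosed]
    intro u P hu hlim
    have hPK : P ∈ K := hKc.isClosed.mem_of_tendsto hlim (Eventually.of_forall fun k => (hu k).1)
    refine ⟨hPK, ?_⟩
    intro z hz hzb
    set g : Cn n × Cn n → ℝ := fun P => (φ z).toReal + M / 2 * (‖P.1 - P.2‖ ^ 2 - ‖z - P.2‖ ^ 2)
      with hg
    have hgc : Continuous g := by simp only [hg]; fun_prop
    by_contra hcon
    push Not at hcon
    obtain ⟨c, hc1, hc2⟩ := EReal.lt_iff_exists_real_btwn.1 hcon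
    have h1 : ∀ᶠ x in 𝓝[closedBall z0 r] P.1, φ x < (c : EReal) := husc' P.1 hPK.1 _ hc1
    have h2 : Tendsto (fun k => (u k).1) atTop (𝓝[closedBall z0 r] P.1) := by
      apply tendsto_nhdsWithin_iff.2
      exact ⟨(continuous_fst.tendsto P).comp hlim, Eventually.of_forall fun k => (hu k).1.1⟩
    have h3 : ∀ᶠ k in atTop, φ (u k).1 < (c : EReal) := h2.eventually h1
    have h4 : ∀ᶠ k in atTop, c < g (u k) := by
      have : Tendsto (fun k => g (u k)) atTop (𝓝 (g P)) := (hgc.tendsto P).comp hlim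
      exact this.eventually (lt_mem_nhds (EReal.coe_lt_coe_iff.1 hc2))
    obtain ⟨k, hk3, hk4⟩ := (h3.and h4).exists
    have h5 := (hu k).2 z hz hzb
    have h6 : (c : EReal) < (g (u k) : EReal) := EReal.coe_lt_coe_iff.2 hk4
    exact absurd (h6.trans_le h5) (not_lt.2 hk3.le)
  have hDc : IsCompact D := hKc.of_isClosed_subset hcl (fun P hP => hP.1)
  have himg : contactSet φ z0 r M = Prod.fst '' D := by
    ext x
    constructor
    · rintro ⟨y, hy, hx, hxb, hc⟩
      refine ⟨(x, y), ⟨⟨hx, hy⟩, ?_⟩, rfl⟩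
      intro z hz hzb
      have h1 := hc z hz
      rw [(EReal.coe_toReal (htop z (hsub hz)) hzb).symm, EReal.coe_le_coe_iff] at h1
      rw [(EReal.coe_toReal (htop x (hsub hx)) hxb).symm, EReal.coe_le_coe_iff]
      simp only at h1 ⊢
      linarith
    · rintro ⟨⟨x', y⟩, ⟨⟨hx, hy⟩, hc⟩, rfl⟩
      simp only at hx hy hc ⊢
      have hxb : φ x' ≠ ⊥ := by
        intro h
        have := hc y' hy' hyb
        rw [h, le_bot_iff] at this
        exact EReal.coe_ne_bot _ this
      refine ⟨y, hy, hx, hxb, ?_⟩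
      intro z hz
      by_cases hzb : φ z = ⊥
      · rw [hzb]; exact bot_le
      · have h1 := hc z hz hzb
        rw [(EReal.coe_toReal (htop x' (hsub hx)) hxb).symm, EReal.coe_le_coe_iff] at h1
        rw [(EReal.coe_toReal (htop z (hsub hz)) hzb).symm, EReal.coe_le_coe_iff]
        linarith
  rw [himg]
  exact hDc.image continuous_fst

/-- The contact set has at least a universal fraction of the measure of the ball. -/
theorem contactSet_measure {n : ℕ} {Ω : Set (Cn n)} {φ : Cn n → EReal} (hφ : IsPSH Ω φ)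
    {z0 : Cn n} {r M : ℝ} (hr : 0 < r) (hM : 0 < M) (hsub : closedBall z0 r ⊆ Ω)
    (hex : ∀ y ∈ closedBall z0 (r / 8), ∃ x, Contact φ z0 r M x y)
    (hnear : ∀ y ∈ closedBall z0 (r / 8), ∀ x, Contact φ z0 r M x y → ‖x - z0‖ ≤ r / 2) :
    (μH[Module.finrank ℝ (Cn n)] : Measure (Cn n)) (closedBall z0 (r / 8)) ≤
      (16 : ENNReal) ^ (Module.finrank ℝ (Cn n)) *
        (μH[Module.finrank ℝ (Cn n)] : Measure (Cn n)) (contactSet φ z0 r M) := by
  classical
  set Y : Cn n → Cn n := fun x =>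
    if h : ∃ y ∈ closedBall z0 (r / 8), Contact φ z0 r M x y then h.choose else z0 with hY
  have hYspec : ∀ x ∈ contactSet φ z0 r M, Y x ∈ closedBall z0 (r / 8) ∧
      Contact φ z0 r M x (Y x) := by
    intro x hx
    have hx' : ∃ y ∈ closedBall z0 (r / 8), Contact φ z0 r M x y := hx
    simp only [hY, dif_pos hx']
    exact hx'.choose_spec
  have hlip : LipschitzOnWith 16 Y (contactSet φ z0 r M) := by
    apply LipschitzOnWith.of_dist_le_mul
    intro x1 hx1 x2 hx2
    obtain ⟨hy1, hc1⟩ := hYspec x1 hx1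
    obtain ⟨hy2, hc2⟩ := hYspec x2 hx2
    have h1 := contact_lip hφ hr hM hsub hc1 hc2 (hnear _ hy1 _ hc1)
      (by rw [← dist_eq_norm]; exact hy1) (by rw [← dist_eq_norm]; exact hy2)
    rw [dist_comm, dist_eq_norm, dist_eq_norm]
    exact h1
  have hsurj : closedBall z0 (r / 8) ⊆ Y '' (contactSet φ z0 r M) := by
    intro y hy
    obtain ⟨x, hx⟩ := hex y hy
    have hxA : x ∈ contactSet φ z0 r M := ⟨y, hy, hx⟩
    refine ⟨x, hxA, ?_⟩
    obtain ⟨hy1, hc1⟩ := hYspec x hxA
    have h1 := contact_lip hφ hr hM hsub hc1 hx (hnear _ hy1 _ hc1)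
      (by rw [← dist_eq_norm]; exact hy1) (by rw [← dist_eq_norm]; exact hy)
    rw [sub_self, norm_zero, mul_zero] at h1
    have h2 : y - Y x = 0 := norm_le_zero_iff.1 h1
    exact (sub_eq_zero.1 h2).symm
  calc (μH[Module.finrank ℝ (Cn n)] : Measure (Cn n)) (closedBall z0 (r / 8))
      ≤ (μH[Module.finrank ℝ (Cn n)] : Measure (Cn n)) (Y '' (contactSet φ z0 r M)) :=
        measure_mono hsurj
    _ ≤ ((16 : NNReal) : ENNReal) ^ ((Module.finrank ℝ (Cn n) : ℕ) : ℝ) *
        (μH[Module.finrank ℝ (Cn n)] : Measure (Cn n)) (contactSet φ z0 r M) :=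
        hlip.hausdorffMeasure_image_le (by positivity)
    _ = _ := by
        rw [ENNReal.rpow_natCast]
        rfl

/-- **Positive answer to Q1.**  The exceptional set of a plurisubharmonic function that is not
identically `-∞` on a domain has Lebesgue measure zero. -/
theorem exceptional_null {n : ℕ} (Ω : Set (Cn n)) (hΩ : IsOpen Ω) (hconn : IsPreconnected Ω)
    (φ : Cn n → EReal) (hφ : IsPSH Ω φ) (hne : ∃ z ∈ Ω, φ z ≠ ⊥) :
    volume (exceptional Ω φ) = 0 := by
  set D := Module.finrank ℝ (Cn n) with hD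
  set μ : Measure (Cn n) := μH[(D : ℝ)] with hμ
  have : μ.IsAddHaarMeasure := isAddHaarMeasure_hausdorffMeasure
  have hac : (volume : Measure (Cn n)) ≪ μ := Measure.absolutelyContinuous_isAddHaarMeasure _ _
  apply hac
  by_contra hpos
  set E := exceptional Ω φ with hE
  have hEΩ : E ⊆ Ω := fun z hz => hz.1
  have h1 := Besicovitch.ae_tendsto_measure_inter_div μ E
  have h2 : ∀ᵐ x ∂(μ.restrict E), x ∈ Ω := by
    have : ∀ᵐ x ∂(μ.restrict Ω), x ∈ Ω := ae_restrict_mem hΩ.measurableSet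
    exact this.filter_mono (ae_mono (Measure.restrict_mono hEΩ le_rfl))
  have hne0 : μ.restrict E ≠ 0 := by
    intro h
    rw [Measure.restrict_eq_zero] at h
    exact hpos h
  have : (ae (μ.restrict E)).NeBot := ae_neBot.2 hne0
  obtain ⟨z0, hz0lim, hz0Ω⟩ := (h1.and h2).exists
  obtain ⟨ε, hε, hεΩ⟩ := Metric.isOpen_iff.1 hΩ z0 hz0Ω
  -- the universal density bound
  set c : ENNReal := ENNReal.ofReal ((1 / 128 : ℝ) ^ D) with hc
  have hcpos : 0 < c := ENNReal.ofReal_pos.2 (by positivity)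
  have hbound : ∀ r : ℝ, 0 < r → r < ε →
      μ (E ∩ closedBall z0 r) / μ (closedBall z0 r) ≤ 1 - c := by
    intro r hr hrε
    have hsub : closedBall z0 r ⊆ Ω := (closedBall_subset_ball hrε).trans hεΩ
    have hfin : ∃ y ∈ closedBall z0 (r / 8), φ y ≠ ⊥ := by
      by_contra hall
      push Not at hall
      obtain ⟨z1, hz1, hz1b⟩ := hne
      exact hz1b (eq_bot_propagate Ω hΩ hconn φ hφ z0 (r / 8) (by positivity)
        ((ball_subset_closedBall.trans (closedBall_subset_closedBall (by linarith))).trans hsub)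
        (fun z hz => hall z (ball_subset_closedBall hz)) z1 hz1)
    obtain ⟨M, hM, hex, hnear⟩ := exists_contact hφ hr hsub hfin
    have hmeas := contactSet_measure hφ hr hM hsub hex hnear
    have hcomp : IsCompact (contactSet φ z0 r M) := contactSet_isCompact hφ hsub
      (hfin.imp fun y hy => ⟨closedBall_subset_closedBall (by linarith) hy.1, hy.2⟩)
    have hAsub : contactSet φ z0 r M ⊆ closedBall z0 r := fun x ⟨y, _, hx⟩ => hx.1
    have hEA : E ∩ closedBall z0 r ⊆ closedBall z0 r \ contactSet φ z0 r M := by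
      rintro x ⟨hxE, hxB⟩
      refine ⟨hxB, ?_⟩
      rintro ⟨y, hy, hxy⟩
      have hxn : ‖x - z0‖ ≤ r / 2 := hnear y hy x hxy
      exact hxE.2 (contact_hasUpperTest hφ hsub hxy
        (by rw [mem_ball, dist_eq_norm]; linarith))
    have hB0 : μ (closedBall z0 r) ≠ 0 := (measure_closedBall_pos μ z0 hr).ne'
    have hBtop : μ (closedBall z0 r) ≠ ⊤ := (isCompact_closedBall z0 r).measure_lt_top.ne
    have hAbig : c * μ (closedBall z0 r) ≤ μ (contactSet φ z0 r M) := by
      have h3 : μ (closedBall z0 (r / 8)) = ENNReal.ofReal ((1 / 8 : ℝ) ^ D) *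
          μ (closedBall z0 r) := by
        rw [Measure.addHaar_closedBall μ z0 (by positivity), Measure.addHaar_closedBall μ z0 hr.le,
          ← mul_assoc, ← ENNReal.ofReal_mul (by positivity), ← mul_pow]
        congr 3
        ring
      rw [h3] at hmeas
      have h16 : (16 : ENNReal) ^ D ≠ 0 := by positivity
      have h16t : (16 : ENNReal) ^ D ≠ ⊤ := ENNReal.pow_ne_top (by norm_num)
      have h5 : (16 : ENNReal) ^ D * (c * μ (closedBall z0 r)) =
          ENNReal.ofReal ((1 / 8 : ℝ) ^ D) * μ (closedBall z0 r) := by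
        rw [← mul_assoc]
        congr 1
        have : (16 : ENNReal) = ENNReal.ofReal 16 := by norm_num
        rw [this, ← ENNReal.ofReal_pow (by norm_num), hc, ← ENNReal.ofReal_mul (by positivity),
          ← mul_pow]
        norm_num
      rw [← h5] at hmeas
      exact (ENNReal.mul_le_mul_iff_right h16 h16t).1 hmeas
    rw [ENNReal.div_le_iff hB0 hBtop]
    calc μ (E ∩ closedBall z0 r) ≤ μ (closedBall z0 r \ contactSet φ z0 r M) :=
          measure_mono hEA
      _ = μ (closedBall z0 r) - μ (contactSet φ z0 r M) :=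
          measure_sdiff hAsub hcomp.measurableSet.nullMeasurableSet hcomp.measure_lt_top.ne
      _ ≤ μ (closedBall z0 r) - c * μ (closedBall z0 r) := by gcongr
      _ = (1 - c) * μ (closedBall z0 r) := by
          rw [ENNReal.sub_mul (fun _ _ => hBtop), one_mul]
  have hle : (1 : ENNReal) ≤ 1 - c := by
    apply le_of_tendsto hz0lim
    have : ∀ᶠ r : ℝ in 𝓝[>] 0, r < ε := by
      filter_upwards [Ioo_mem_nhdsGT hε] with r hr using hr.2
    filter_upwards [this, self_mem_nhdsWithin] with r hr hr0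
    exact hbound r hr0 hr
  have : (1 : ENNReal) - c < 1 := ENNReal.sub_lt_self (by norm_num) (by norm_num) hcpos.ne'
  exact absurd hle (not_le.2 this)

end Pool.Agent.L0h89.UpperTest
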